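import Pool.Agent.helper73.BRZ.Spec

/-! # BRZ: row IDX -/

set_option autoImplicit false

namespace Pool.Agent.BRZ

open Matrix Module Pool.Agent.PR Pool.Agent.SHL

section

variable {d : ℕ} {D : Type} [DivisionRing D] [Algebra ℚ D]

/-- right multiplication -/
def IDX_rho (w : D) : D →+ D := AddMonoidHom.mulRight w

theorem IDX_rho_apply (w x : D) : IDX_rho w x = x * w := rfl

theorem IDX_rho_inj {w : D} (hw : w ≠ 0) : Function.Injective (IDX_rho w) := by
  intro x y h
  rw [IDX_rho_apply, IDX_rho_apply] at h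
  exact mul_right_cancel₀ hw h

theorem IDX_b_mem (S : SO d D) (i : Fin (d * d)) : S.b i ∈ S.ord :=
  AddSubgroup.subset_closure ⟨i, rfl⟩

theorem IDX_sum_mem (S : SO d D) (c : Fin (d * d) → ℤ) : ∑ l, c l • S.b l ∈ S.ord :=
  AddSubgroup.sum_mem _ fun l _ => AddSubgroup.zsmul_mem _ (IDX_b_mem S l) _

theorem IDX_mul_mem (S : SO d D) {x y : D} (hx : x ∈ S.ord) (hy : y ∈ S.ord) : x * y ∈ S.ord := by
  have h1 : ∀ i, ∀ y ∈ S.ord, S.b i * y ∈ S.ord := by
    intro i y hy
    induction hy using AddSubgroup.closure_induction with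
    | mem y hy =>
      obtain ⟨j, rfl⟩ := hy
      obtain ⟨c, hc⟩ := S.mul i j
      rw [hc]
      exact IDX_sum_mem S c
    | zero => rw [mul_zero]; exact AddSubgroup.zero_mem _
    | add a b _ _ ha hb => rw [mul_add]; exact AddSubgroup.add_mem _ ha hb
    | neg a _ ha => rw [mul_neg]; exact AddSubgroup.neg_mem _ ha
  induction hx using AddSubgroup.closure_induction with
  | mem x hx =>
    obtain ⟨i, rfl⟩ := hx
    exact h1 i y hy
  | zero => rw [zero_mul]; exact AddSubgroup.zero_mem _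
  | add a b _ _ ha hb => rw [add_mul]; exact AddSubgroup.add_mem _ ha hb
  | neg a _ ha => rw [neg_mul]; exact AddSubgroup.neg_mem _ ha

theorem IDX_one_mem (S : SO d D) : (1 : D) ∈ S.ord := by
  obtain ⟨c, hc⟩ := S.one
  rw [hc]
  exact IDX_sum_mem S c

theorem IDX_natCast_mem (S : SO d D) (m : ℕ) : (m : D) ∈ S.ord := by
  have h := AddSubgroup.nsmul_mem _ (IDX_one_mem S) m
  rwa [nsmul_one] at h

/-- the index of `O w` in `O` -/
theorem IDX_index (hNOR : NOR_stmt) [FiniteDimensional ℚ D] (S : SO d D) (w : D) (hw : w ≠ 0)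
    (h : S.ord.map (IDX_rho w) ≤ S.ord) :
    (((S.ord.map (IDX_rho w)).relIndex S.ord : ℕ) : ℚ) = |nor w| := by
  let e : D ≃ₗ[ℚ] D := LinearEquiv.ofInjectiveEndo (LinearMap.mulRight ℚ w) fun x y h => by
    rw [LinearMap.mulRight_apply, LinearMap.mulRight_apply] at h
    exact mul_right_cancel₀ hw h
  have he : ∀ x, e x = x * w := fun x => by
    show (LinearEquiv.ofInjectiveEndo (LinearMap.mulRight ℚ w) _) x = x * w
    rw [LinearEquiv.coe_ofInjectiveEndo, LinearMap.mulRight_apply]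
  have h1 : S.ord.map (IDX_rho w) = AddSubgroup.closure (Set.range (S.b.map e)) := by
    unfold SO.ord
    rw [AddMonoidHom.map_closure, ← Set.range_comp]
    congr 1
  have h2 := AddSubgroup.relIndex_eq_abs_det (S.ord.map (IDX_rho w)) S.ord h (S.b.map e) S.b h1 rfl
  rw [h2]
  have h3 : (S.b.map e : Fin (d * d) → D) = (LinearMap.mulRight ℚ w) ∘ S.b := by
    funext i
    rw [Basis.map_apply, he, Function.comp_apply, LinearMap.mulRight_apply]
  rw [h3, Basis.det_comp, Basis.det_self, mul_one, (hNOR D w).1]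

theorem IDX_nsmul_mem (S : SO d D) (Y : S.LY) (y : D) (hy : y ∈ Y.1) : ((S.ix Y : ℕ) : D) * y ∈ S.ord := by
  have h := AddSubgroup.nsmul_index_mem (S.ord.addSubgroupOf Y.1) ⟨y, hy⟩
  rw [AddSubgroup.mem_addSubgroupOf] at h
  rw [← nsmul_eq_mul]
  exact h

theorem IDX_ix_ne (S : SO d D) (Y : S.LY) : S.ix Y ≠ 0 := Y.2.2.2

theorem IDX (hNOR : NOR_stmt) : IDX_stmt := by
  intro d D _ _ _ hd S
  have hchar : CharZero D := algebraRat.charZero D
  refine ⟨?_, ?_, ?_⟩
  · -- (1)
    intro Y z hz hz0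
    obtain ⟨hY1, hY2, hY3⟩ := Y.2
    set m : ℕ := S.ix Y with hm
    have hm0 : m ≠ 0 := IDX_ix_ne S Y
    have hmD : (m : D) ≠ 0 := Nat.cast_ne_zero.2 hm0
    set w : D := (m : D) * z with hw
    have hw0 : w ≠ 0 := mul_ne_zero hmD hz0
    have hwO : w ∈ S.ord := IDX_nsmul_mem S Y z hz
    have hOw : S.ord.map (IDX_rho w) ≤ S.ord := by
      rintro _ ⟨x, hx, rfl⟩
      exact IDX_mul_mem S hx hwO
    have hOm : S.ord.map (IDX_rho (m : D)) ≤ S.ord := by
      rintro _ ⟨x, hx, rfl⟩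
      exact IDX_mul_mem S hx (IDX_natCast_mem S m)
    have hOz : S.ord.map (IDX_rho z) ≤ Y.1 := by
      rintro _ ⟨x, hx, rfl⟩
      exact hY2 x hx z hz
    have hcomp : S.ord.map (IDX_rho w) = (S.ord.map (IDX_rho (m : D))).map (IDX_rho z) := by
      rw [AddSubgroup.map_map]
      congr 1
      ext x
      rw [AddMonoidHom.comp_apply, IDX_rho_apply, IDX_rho_apply, IDX_rho_apply, hw, mul_assoc]
    have e1 := IDX_index hNOR S w hw0 hOw
    have e2 := IDX_index hNOR S (m : D) hmD hOm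
    have e3 : (S.ord.map (IDX_rho w)).relIndex S.ord * S.ord.relIndex Y.1 =
        (S.ord.map (IDX_rho w)).relIndex Y.1 := AddSubgroup.relIndex_mul_relIndex _ _ _ hOw hY1
    have hle : S.ord.map (IDX_rho w) ≤ S.ord.map (IDX_rho z) := by
      rw [hcomp]
      exact AddSubgroup.map_mono hOm
    have e4 : (S.ord.map (IDX_rho w)).relIndex (S.ord.map (IDX_rho z)) *
        (S.ord.map (IDX_rho z)).relIndex Y.1 = (S.ord.map (IDX_rho w)).relIndex Y.1 :=
      AddSubgroup.relIndex_mul_relIndex _ _ _ hle hOz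
    have e5 : (S.ord.map (IDX_rho w)).relIndex (S.ord.map (IDX_rho z)) =
        (S.ord.map (IDX_rho (m : D))).relIndex S.ord := by
      rw [hcomp]
      exact AddSubgroup.relIndex_map_map_of_injective _ _ (IDX_rho_inj hz0)
    have hmap : (Y.1.comap (IDX_rho z)).map (IDX_rho z) = Y.1 := by
      apply AddSubgroup.map_comap_eq_self_of_surjective
      intro y
      refine ⟨y * z⁻¹, ?_⟩
      rw [IDX_rho_apply, mul_assoc, inv_mul_cancel₀ hz0, mul_one]
    have e6 : (S.ord.map (IDX_rho z)).relIndex Y.1 = S.ord.relIndex (Y.1.comap (IDX_rho z)) := by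
      have h := AddSubgroup.relIndex_map_map_of_injective S.ord (Y.1.comap (IDX_rho z)) (IDX_rho_inj hz0)
      rwa [hmap] at h
    have hnm : nor (m : D) ≠ 0 := (hNOR D (m : D)).2.2 hmD
    have hnz : nor z ≠ 0 := (hNOR D z).2.2 hz0
    have hnw : nor w = nor (m : D) * nor z := (hNOR D (m : D)).2.1 z
    have e7 : ((S.ord.relIndex (Y.1.comap (IDX_rho z)) : ℕ) : ℚ) = (S.ix Y : ℚ) * |nor z| := by
      have f1 : |nor (m : D)| * ((S.ord.relIndex (Y.1.comap (IDX_rho z)) : ℕ) : ℚ) =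
          |nor w| * (S.ix Y : ℚ) := by
        rw [← e1, ← e2, ← e5, ← e6]
        have g1 : ((S.ord.map (IDX_rho w)).relIndex (S.ord.map (IDX_rho z)) *
            (S.ord.map (IDX_rho z)).relIndex Y.1 : ℕ) =
            (S.ord.map (IDX_rho w)).relIndex S.ord * S.ord.relIndex Y.1 := by rw [e4, e3]
        have g2 : S.ix Y = S.ord.relIndex Y.1 := rfl
        rw [g2]
        exact_mod_cast g1
      rw [hnw, abs_mul] at f1
      have f2 : 0 < |nor (m : D)| := abs_pos.2 hnm
      have f3 : |nor (m : D)| * ((S.ord.relIndex (Y.1.comap (IDX_rho z)) : ℕ) : ℚ) =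
          |nor (m : D)| * ((S.ix Y : ℚ) * |nor z|) := by
        rw [f1]
        ring
      exact mul_left_cancel₀ f2.ne' f3
    have hne : S.ord.relIndex (Y.1.comap (IDX_rho z)) ≠ 0 := by
      intro h0
      rw [h0, Nat.cast_zero] at e7
      have f1 : (S.ix Y : ℚ) ≠ 0 := by exact_mod_cast hm0
      have f2 : |nor z| ≠ 0 := abs_ne_zero.2 hnz
      exact mul_ne_zero f1 f2 e7.symm
    refine ⟨⟨Y.1.comap (IDX_rho z), ?_, ?_, hne⟩, fun x => Iff.rfl, ?_⟩
    · intro a ha
      exact hY2 a ha z hz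
    · intro a ha y hy
      show a * y * z ∈ Y.1
      rw [mul_assoc]
      exact hY2 a ha _ hy
    · show ((S.ord.relIndex (Y.1.comap (IDX_rho z)) : ℕ) : ℝ) = _
      exact_mod_cast e7
  · -- (2)
    intro Y z hz0 hYz
    obtain ⟨hY1, hY2, hY3⟩ := Y.2
    have hzO : z ∈ S.ord := by
      have h := hYz 1 (hY1 (IDX_one_mem S))
      rwa [one_mul] at h
    have hOz : S.ord.map (IDX_rho z) ≤ S.ord := by
      rintro _ ⟨x, hx, rfl⟩
      exact IDX_mul_mem S hx hzO
    have hYO : Y.1.map (IDX_rho z) ≤ S.ord := by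
      rintro _ ⟨x, hx, rfl⟩
      exact hYz x hx
    have e1 := IDX_index hNOR S z hz0 hOz
    have e2 : (S.ord.map (IDX_rho z)).relIndex (Y.1.map (IDX_rho z)) *
        (Y.1.map (IDX_rho z)).relIndex S.ord = (S.ord.map (IDX_rho z)).relIndex S.ord :=
      AddSubgroup.relIndex_mul_relIndex _ _ _ (AddSubgroup.map_mono hY1) hYO
    have e3 : (S.ord.map (IDX_rho z)).relIndex (Y.1.map (IDX_rho z)) = S.ix Y :=
      AddSubgroup.relIndex_map_map_of_injective _ _ (IDX_rho_inj hz0)
    have hnz : nor z ≠ 0 := (hNOR D z).2.2 hz0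
    have h0 : (S.ord.map (IDX_rho z)).relIndex S.ord ≠ 0 := by
      intro h
      rw [h, Nat.cast_zero] at e1
      exact abs_ne_zero.2 hnz e1.symm
    have h1 : S.ix Y ≤ (S.ord.map (IDX_rho z)).relIndex S.ord := by
      rw [← e2, e3]
      refine Nat.le_mul_of_pos_right _ (Nat.pos_of_ne_zero fun h => h0 ?_)
      rw [← e2, h, mul_zero]
    have h2 : ((S.ix Y : ℕ) : ℚ) ≤ |nor z| := by
      rw [← e1]
      exact_mod_cast h1
    exact_mod_cast h2
  · -- (3)
    have hcD : Countable D := by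
      have := (S.b.equivFun).toEquiv.countable_iff
      exact this.2 inferInstance
    have hfg : ∀ Y : S.LY, ∃ s : Finset D, AddSubgroup.closure (s : Set D) = Y.1 := by
      intro Y
      have hm0 : S.ix Y ≠ 0 := IDX_ix_ne S Y
      have hmD : ((S.ix Y : ℕ) : D) ≠ 0 := Nat.cast_ne_zero.2 hm0
      have h1 : Y.1.toIntSubmodule ≤
          (S.ord.map (IDX_rho (((S.ix Y : ℕ) : D)⁻¹))).toIntSubmodule := by
        intro y hy
        refine ⟨((S.ix Y : ℕ) : D) * y, IDX_nsmul_mem S Y y hy, ?_⟩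
        rw [IDX_rho_apply, (Nat.cast_commute (S.ix Y) y).eq, mul_assoc, mul_inv_cancel₀ hmD, mul_one]
      have h2 : (S.ord.map (IDX_rho (((S.ix Y : ℕ) : D)⁻¹))).toIntSubmodule.FG := by
        rw [Submodule.fg_iff_addSubgroup_fg]
        show (S.ord.map (IDX_rho (((S.ix Y : ℕ) : D)⁻¹))).FG
        rw [AddSubgroup.fg_iff]
        refine ⟨IDX_rho (((S.ix Y : ℕ) : D)⁻¹) '' Set.range S.b, ?_, (Set.finite_range _).image _⟩
        unfold SO.ord
        rw [AddMonoidHom.map_closure]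
      have h3 := Submodule.FG.of_le h2 h1
      rw [Submodule.fg_iff_addSubgroup_fg] at h3
      exact h3
    choose f hf using hfg
    have hinj : Function.Injective f := by
      intro Y Y' h
      apply Subtype.ext
      rw [← hf Y, ← hf Y', h]
    exact hinj.countable

end

end Pool.Agent.BRZ
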